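import Pool.Agent.Lib.MP_b39e30_al.Lc.Ul

/-!
For all `d` and `n` there is `N` such that, for every commutative ring `R`, every `R`-module `M`
with `d` generators and without `N!`-torsion and every group `G` of `R`-automorphisms of `M`, every
left `n`-Engel element of `G` generates a subnormal subgroup. The map `y ↦ y⁻¹ * g⁻¹ * y * g` is
the commutator `[y, g]` of the problem file.
-/

set_option autoImplicit false

namespace Pool.Agent.Lib.MP_b39e30_al.Old.LargeChar

open Pool.Agent.Lib.MP_b39e30_al.Lc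

/-- `g` is a left `n`-Engel element: `[x,_n g] = 1` for all `x`. -/
def LeftEngel {Γ : Type} [Group Γ] (n : ℕ) (g : Γ) : Prop :=
  ∀ x : Γ, (fun y => y⁻¹ * g⁻¹ * y * g)^[n] x = 1

theorem result (d n : ℕ) :
    ∃ N : ℕ, ∀ (R M : Type) [CommRing R] [AddCommGroup M] [Module R M] (b : Fin d → M),
      Submodule.span R (Set.range b) = ⊤ → (∀ v : M, N.factorial • v = 0 → v = 0) →
      ∀ (G : Subgroup (M ≃ₗ[R] M)) (g : G), LeftEngel n g → (Subgroup.zpowers g).IsSubnormal := by
  obtain ⟨N, hN⟩ := mainL d n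
  refine ⟨N, fun R M _ _ _ b hb hM G g hg => ?_⟩
  obtain ⟨e, m, h⟩ := hN R M b hb hM G
    (LinearEquiv.automorphismGroup.toLinearMapMonoidHom.comp G.subtype) g hg
  exact h.subnormal (LinearEquiv.toLinearMap_injective.comp Subtype.val_injective) hg

/-- The torsion-free case, for all bounded left Engel elements. -/
theorem torsionFree (R M : Type) [CommRing R] [AddCommGroup M] [Module R M] [Module.Finite R M]
    [IsAddTorsionFree M] (G : Subgroup (M ≃ₗ[R] M)) (g : G)
    (hE : ∃ n : ℕ, ∀ x : G, (fun y => y⁻¹ * g⁻¹ * y * g)^[n] x = 1) :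
    (Subgroup.zpowers g).IsSubnormal := by
  obtain ⟨n, hn⟩ := hE
  obtain ⟨d, b, hb⟩ := Module.Finite.exists_fin (R := R) (M := M)
  obtain ⟨N, hN⟩ := result d n
  exact hN R M b hb (fun v hv => (nsmul_eq_zero_iff_right N.factorial_ne_zero).1 hv) G g hn

end Pool.Agent.Lib.MP_b39e30_al.Old.LargeChar
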