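import Pool.Agent.Lib.MP_b39e30_al.Lin.Setup
import Pool.Agent.Lib.MP_b39e30_al.Lin.Final
import Pool.Agent.Lib.MP_b39e30_al.Lin.Engine

/-!
Let `R` be any commutative `ℚ`-algebra and `G` any subgroup of `GL_d(R)`. A bounded left Engel
element of `G` that is a unit multiple of a unipotent matrix has a nilpotent normal closure, so the
cyclic subgroup it generates is subnormal. The map `y ↦ y⁻¹ * g⁻¹ * y * g` is the commutator
`[y, g]` of the problem file.
-/

set_option autoImplicit false

namespace Pool.Agent.Lib.MP_b39e30_al.Old.LinearCharZero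

open Pool.Agent.Lib.MP_b39e30_al.Lin

theorem result (R : Type) [CommRing R] [Algebra ℚ R] (d : ℕ) (G : Subgroup (GL (Fin d) R))
    (g : G) (r : Rˣ)
    (hr : IsNilpotent (((g : GL (Fin d) R) : Matrix (Fin d) (Fin d) R) - (r : R) • 1))
    (hE : ∃ n : ℕ, ∀ x : G, (fun y => y⁻¹ * g⁻¹ * y * g)^[n] x = 1) :
    Group.IsNilpotent (Subgroup.normalClosure ({g} : Set G)) ∧
      (Subgroup.zpowers g).IsSubnormal := by
  obtain ⟨n, hn⟩ := hE
  obtain ⟨k, X, hg, hC⟩ := setup G g r hr n hn
  obtain ⟨m, hm⟩ := engine hC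
  exact final G g r k X (hC.nil X hC.mem) hg m hm

end Pool.Agent.Lib.MP_b39e30_al.Old.LinearCharZero
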