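import Pool.Agent.Lib.MP_b39e30_al.Fit.Unif
import Pool.Agent.Lib.MP_b39e30_al.Lin.Final

/-!
For all `d` and `n` there is `N` such that, for every commutative ring `R` without additive torsion
of order at most `N` and every group `G` embedded in `GL_d(R)`, a left `n`-Engel element `g` of `G`
has normal closure nilpotent of class at most `N`, and the cyclic subgroup it generates is
subnormal. The map `y ↦ y⁻¹ * g⁻¹ * y * g` is the commutator `[y, g]` of the problem file.
-/

set_option autoImplicit false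

namespace Pool.Agent.Lib.MP_b39e30_al.Old.LinearFitting

open Pool.Agent.Lib.MP_b39e30_al.Fit Pool.Agent.Lib.MP_b39e30_al.Lin

theorem result (d n : ℕ) : ∃ N : ℕ, ∀ (R G : Type) [CommRing R] [Group G]
    (ρ : G →* GL (Fin d) R) (g : G), Function.Injective ρ →
    (∀ (m : ℕ) (r : R), m ≠ 0 → m ≤ N → m • r = 0 → r = 0) →
    (∀ x : G, (fun y => y⁻¹ * g⁻¹ * y * g)^[n] x = 1) →
      (Subgroup.normalClosure {g}).lowerCentralSeries N = ⊥ ∧
        (Subgroup.zpowers g).IsSubnormal := by
  obtain ⟨N, hN⟩ := unif (Fin d) n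
  refine ⟨N, fun R G _ _ ρ g hρ hR hg => ?_⟩
  have h0 : ∀ f, zw g f N = 1 := fun f => hρ <| by
    rw [map_one]
    exact Units.ext (hN R G ((Units.coeHom _).comp ρ) g hR hg f)
  have h : (Subgroup.normalClosure ({g} : Set G)).lowerCentralSeries N = ⊥ :=
    le_bot_iff.1 ((lcs_le g N).trans ((Subgroup.closure_le _).2 fun _ ⟨f, hf⟩ =>
      hf.trans (h0 f)))
  exact ⟨h, final_subnormal Subgroup.normalClosure_normal
    ((Subgroup.zpowers_le (H := Subgroup.normalClosure {g})).2
      (Subgroup.subset_normalClosure rfl)) h⟩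

end Pool.Agent.Lib.MP_b39e30_al.Old.LinearFitting
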